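import Pool.Agent.FinType.Main

open Set

namespace Pool.Agent.Results.MP_de6cd8_gt.FiniteType

open Pool.Agent.FinType

/-- Whatever the class `A` of the spaces of type `1`, every compact polyhedron `P` is a space of
type `n` for some `n`; if `P` has dimension at most `d`, then it is of type `n` for every
`n ≥ d + 2`. -/
theorem result (A : Space → Prop) (P : Space) (hP : IsPolyhedron P.carrier) :
    (∃ n : ℕ, IsType A n P) ∧
      ∀ d n : ℕ, DimLE P.carrier d → d + 2 ≤ n → IsType A n P :=
  ⟨⟨P.dim + 2, isType_of_dim A P hP _ le_rfl⟩, fun d n hd hn => isType_of_dimLE A P d hP hd n hn⟩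

end Pool.Agent.Results.MP_de6cd8_gt.FiniteType
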